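import Pool.Graph.R_pool_sql_team_8f841797.H19.AutFree

/-!
Part of the library proof of MP_0c10a3_al (module `Pool.Graph.R_pool_sql_team_8f841797.S00691`),
copied: the coding of sequences of automorphisms.
-/

set_option autoImplicit false

namespace Pool.Agent.KS6_98.AutF

open Pool.Agent.H19.AutFree
open FreeGroup hiding map_one map_inv map_mul
open Cardinal Function

variable {α : Type}

def tau (μ : FreeGroup ℤ) : Option ℤ :=
  match μ.toWord.getLast? with
  | some (n, false) => some n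
  | _ => none

lemma tau_one : tau 1 = none := rfl
lemma tau_inv (n : ℤ) : tau (of n)⁻¹ = some n := by
  simp [tau, toWord_inv, invRev]

lemma tau_mul (n : ℤ) (μ : FreeGroup ℤ) (h : of n * μ ≠ 1) : tau (of n * μ) = tau μ := by
  have h1 : (of n * μ).toWord = reduce ((n, true) :: μ.toWord) := by rw [toWord_mul]; rfl
  rw [reduce.cons, reduce_toWord] at h1
  rw [Ne, ← toWord_eq_nil_iff] at h
  unfold tau
  rw [h1] at h ⊢
  rcases hμ : μ.toWord with _ | ⟨hd, tl⟩
  · rfl
  · rw [hμ] at h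
    simp only at h ⊢
    split_ifs at h ⊢ with hc
    · rcases tl with _ | ⟨a, tl⟩
      · exact absurd rfl h
      · rw [List.getLast?_cons_cons]
    · rw [List.getLast?_cons_cons]

lemma left_ind {P : FreeGroup ℤ → Prop} (h1 : P 1) (h : ∀ n μ, P (of n * μ) ↔ P μ) (μ) : P μ := by
  have : ∀ ν μ, P (ν * μ) ↔ P μ := by
    intro ν
    induction ν using FreeGroup.induction_on with
    | C1 => simp
    | of x => exact h x
    | inv_of x _ => intro μ; rw [← h x]; simp
    | mul x y hx hy => intro μ; rw [mul_assoc, hx, hy]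
  simpa using (this μ 1).2 h1

section sw
variable {W : Type} (e : α ≃ W × FreeGroup ℤ)

def be : FreeGroup ℤ →* Equiv.Perm α where
  toFun μ := e.trans ((Equiv.prodCongr (Equiv.refl W) (Equiv.mulLeft μ)).trans e.symm)
  map_one' := Equiv.ext fun x => by simp
  map_mul' a b := Equiv.ext fun x => e.injective (by simp [mul_assoc, Prod.ext_iff])

def BB : FreeGroup ℤ →* MulAut (FreeGroup α) := pm.comp (be e)

lemma BB_of (μ ν : FreeGroup ℤ) (w : W) :
    BB e μ (of (e.symm (w, ν))) = of (e.symm (w, μ * ν)) := by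
  show of (be e μ _) = _
  simp [be]

theorem swin (ρ : ℤ → MulAut (FreeGroup α)) {β : Type} (r : β → β → Prop) (wf : WellFounded r)
    (rk : W × ℤ → β) (hfix : ∀ n w μ, μ ≠ 1 → ρ n (of (e.symm (w, μ))) = of (e.symm (w, μ)))
    (hdep : ∀ n w, ρ n (of (e.symm (w, 1))) ∈
      Gn {z | ∀ m, tau (e z).2 = some m → r (rk ((e z).1, m)) (rk (w, n))}) :
    ∃ γ : MulAut (FreeGroup α), ∀ n, ρ n = γ * BB e (of n) * γ⁻¹ * (BB e (of n))⁻¹ := by
  classical
  have wf' : WellFounded fun q p : W × ℤ => r (rk q) (rk p) := InvImage.wf rk wf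
  let F : ∀ p : W × ℤ, (∀ q, r (rk q) (rk p) → FreeGroup α) → FreeGroup α := fun p g =>
    lift (fun z => (tau (e z).2).elim (of z) fun m =>
      if h : r (rk ((e z).1, m)) (rk p) then BB e (e z).2 (g _ h) else 1)
      (ρ p.2 (of (e.symm (p.1, 1))))
  let g : W × ℤ → FreeGroup α := wf'.fix F
  let δ : FreeGroup α →* FreeGroup α :=
    lift fun z => (tau (e z).2).elim (of z) fun m => BB e (e z).2 (g ((e z).1, m))
  have d1 : ∀ w μ, δ (of (e.symm (w, μ))) =
      (tau μ).elim (of (e.symm (w, μ))) fun m => BB e μ (g (w, m)) := fun w μ => by simp [δ]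
  have g1 : ∀ w n, g (w, n) = δ (ρ n (of (e.symm (w, 1)))) := by
    intro w n
    have e1 : g (w, n) = F (w, n) fun q _ => g q := wf'.fix_eq F _
    rw [e1]
    refine agree (fun z hz => ?_) (hdep n w)
    simp only [δ, lift_apply_of]
    rcases h : tau (e z).2 with _ | m
    · rfl
    · exact dif_pos (hz m h)
  let A : FreeGroup ℤ →* MulAut (FreeGroup α) := lift fun n => ρ n * BB e (of n)
  have A1 : ∀ n x, A (of n) x = ρ n (BB e (of n) x) := fun n x => by simp [A]
  have i1 : ∀ μ x, δ (A μ x) = BB e μ (δ x) := by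
    have i0 : ∀ n x, δ (A (of n) x) = BB e (of n) (δ x) := by
      intro n x
      refine DFunLike.congr_fun (FreeGroup.ext_hom (δ.comp (A (of n)).toMonoidHom)
        ((BB e (of n)).toMonoidHom.comp δ) fun z => ?_) x
      obtain ⟨⟨w, μ⟩, rfl⟩ := e.symm.surjective z
      show δ (A (of n) _) = BB e (of n) (δ _)
      rw [A1, BB_of]
      by_cases h : of n * μ = 1
      · rw [h, ← g1, eq_inv_of_mul_eq_one_right h, d1, tau_inv]
        simp
      · rw [hfix _ _ _ h, d1, d1, tau_mul _ _ h]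
        rcases tau μ with _ | m
        · exact (BB_of e _ _ _).symm
        · simp
    intro μ
    induction μ using FreeGroup.induction_on with
    | C1 => simp
    | of n => exact i0 n
    | inv_of n _ =>
      intro x
      have := i0 n (A (of n)⁻¹ x)
      simp only [map_inv, MulAut.apply_inv_self] at this ⊢
      rw [this, MulAut.inv_apply_self]
    | mul a b ha hb => intro x; simp [ha, hb]
  let γ : FreeGroup α →* FreeGroup α := lift fun z => A (e z).2 (of (e.symm ((e z).1, 1)))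
  have c1 : ∀ w μ, γ (of (e.symm (w, μ))) = A μ (of (e.symm (w, 1))) := fun w μ => by simp [γ]
  have left : δ.comp γ = MonoidHom.id _ := by
    refine FreeGroup.ext_hom _ _ fun z => ?_
    obtain ⟨⟨w, μ⟩, rfl⟩ := e.symm.surjective z
    rw [MonoidHom.comp_apply, c1, i1, d1, tau_one]
    simp [BB_of]
  have c2 : ∀ μ x, γ (BB e μ x) = A μ (γ x) := by
    intro μ x
    refine DFunLike.congr_fun (FreeGroup.ext_hom (γ.comp (BB e μ).toMonoidHom)
      ((A μ).toMonoidHom.comp γ) fun z => ?_) x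
    obtain ⟨⟨w, ν⟩, rfl⟩ := e.symm.surjective z
    show γ (BB e μ (of (e.symm (w, ν)))) = A μ (γ (of (e.symm (w, ν))))
    rw [BB_of, c1, c1, map_mul]; rfl
  have base : ∀ w μ, of (e.symm (w, μ)) = A μ ((tau μ).elim (of (e.symm (w, 1)))
      fun m => ρ m (of (e.symm (w, 1)))) := by
    intro w
    refine left_ind (by simp [tau_one]) fun n μ => ?_
    by_cases h : of n * μ = 1
    · rw [h, eq_inv_of_mul_eq_one_right h, tau_one, tau_inv]
      refine iff_of_true (by simp) ?_
      rw [map_inv, MulAut.inv_def, eq_comm, MulEquiv.symm_apply_eq, A1, BB_of]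
      simp
    · rw [tau_mul _ _ h, map_mul, MulAut.mul_apply, ← hfix n _ _ h, ← BB_of, ← A1]
      exact (A (of n)).injective.eq_iff
  have inv : ∀ μ x, x ∈ γ.range → A μ x ∈ γ.range := by
    rintro μ _ ⟨x, rfl⟩
    exact ⟨_, c2 μ x⟩
  have one : ∀ w, of (e.symm (w, 1)) ∈ γ.range := fun w => ⟨_, (c1 w 1).trans (by simp)⟩
  have s1 : ∀ p : W × ℤ, ρ p.2 (of (e.symm (p.1, 1))) ∈ γ.range := by
    intro p
    induction p using wf'.induction with
    | _ p ih =>
      refine map_mem (f := MonoidHom.id _) (fun z hz => ?_) (hdep p.2 p.1)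
      obtain ⟨⟨w, μ⟩, rfl⟩ := e.symm.surjective z
      rw [MonoidHom.id_apply, base]
      apply inv
      rcases h : tau μ with _ | m
      · exact one w
      · exact ih (w, m) (by simpa using hz m (by simpa using h))
  have surj : Surjective γ := surj_of _ fun z => by
    obtain ⟨⟨w, μ⟩, rfl⟩ := e.symm.surjective z
    rw [base]
    apply inv
    rcases tau μ with _ | m
    · exact one w
    · exact s1 (w, m)
  have inj : Injective γ := LeftInverse.injective (g := δ) fun w => DFunLike.congr_fun left w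
  let R : MulAut (FreeGroup α) := MulEquiv.ofBijective γ ⟨inj, surj⟩
  refine ⟨R, fun n => ?_⟩
  have : R * BB e (of n) = ρ n * BB e (of n) * R := MulEquiv.ext fun x => (c2 _ x).trans (A1 n _)
  rw [this]; group

def aa : Equiv.Perm α :=
  e.trans ((Equiv.prodCongr (Equiv.refl W) (freeGroupCongr (Equiv.addRight (1 : ℤ))).toEquiv).trans
    e.symm)

lemma aa_conj (k : ℕ) : BB e (of (k : ℤ)) = pm (aa e) ^ k * BB e (of 0) * (pm (aa e) ^ k)⁻¹ := by
  have h : ∀ n : ℤ, be e (of (n + 1)) * aa e = aa e * be e (of n) := fun n =>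
    Equiv.ext fun x => e.injective (by simp [be, aa, Prod.ext_iff])
  induction k with
  | zero => simp
  | succ k ih =>
    have : BB e (of ((k : ℤ) + 1)) = pm (aa e) * BB e (of (k : ℤ)) * (pm (aa e))⁻¹ := by
      rw [eq_mul_inv_iff_mul_eq]
      show pm _ * pm _ = pm _ * pm _
      rw [← map_mul, ← map_mul, h]
    push_cast
    rw [this, ih]; group

end sw

theorem code [Infinite α] (ρ : ℤ → MulAut (FreeGroup α)) (Z : Set α) (hZ : #Z = #α)
    (hρ : ∀ n, ∀ z ∈ Z, ρ n (of z) = of z) : ∃ a b γ : MulAut (FreeGroup α), ∀ k : ℕ,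
      ρ k = γ * (a ^ k * b * (a ^ k)⁻¹) * γ⁻¹ * (a ^ k * b * (a ^ k)⁻¹)⁻¹ := by
  classical
  have ha := aleph0_le_mk α
  obtain ⟨i0⟩ : Nonempty (α × Fin 3 ≃ Z) := Cardinal.eq.1 (by
    rw [hZ]; simp [mul_eq_left ha (by simpa using (natCast_lt_aleph0 (n := 3)).le.trans ha)])
  let ι : α × Fin 3 → α := fun p => i0 p
  have hι : Injective ι := Subtype.val_injective.comp i0.injective
  let Y : Set α := {x | ∀ a, x ≠ ι (a, 1) ∧ x ≠ ι (a, 2)}
  have hY : #Y = #α := le_antisymm (mk_set_le _) (mk_le_of_injective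
    (f := fun a => (⟨ι (a, 0), fun b => ⟨fun h => by simpa using hι h, fun h => by
      simpa using hι h⟩⟩ : Y)) fun a b h => by
        have h' : ι (a, 0) = ι (b, 0) := congrArg (Subtype.val : Y → α) h
        simpa using hι h')
  have hYN : #(Y × FreeGroup ℤ) = #α := by simp [hY]
  obtain ⟨j, hj⟩ := ex_ord (α := α) (Y × ℤ) (by simp [hY])
  obtain ⟨c, hc, hcD⟩ := select (α := α) hYN.le
    (fun p => (fun a => ι (a, 1)) ⁻¹'
      (⋃ q ∈ {q : Y × ℤ | j q ≤ j (p.1, (tau p.2).getD 0)}, supp (ρ q.2 (of q.1.1))))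
    fun p => by
      refine (mk_preimage_of_injective _ _ fun a b h => by simpa using hι h).trans_lt
        (small_union _ ?_ _ fun y => supp_fin _)
      have : {q : Y × ℤ | j q ≤ j (p.1, (tau p.2).getD 0)} ⊆ insert (p.1, (tau p.2).getD 0)
          {q : Y × ℤ | j q < j (p.1, (tau p.2).getD 0)} := fun y hy =>
        (eq_or_lt_of_le hy).imp (fun h => hj h) id
      exact (mk_le_mk_of_subset this).trans_lt (mk_insert_le.trans_lt
        (add_one_lt_of_lt ha (small_Iio hj _)))
  have nY : ∀ a, ι (a, 1) ∉ Y := fun a h => (h a).1 rfl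
  let s : Set (Y × FreeGroup ℤ) := {p | p.2 = 1 ∨ tau p.2 ≠ none}
  let f : s ↪ α := ⟨fun p => if p.1.2 = 1 then p.1.1.1 else ι (c p.1, 1), fun p q h => by
    dsimp only at h
    split_ifs at h with h1 h2 h2
    · exact Subtype.ext (Prod.ext (Subtype.ext h) (h1.trans h2.symm))
    · exact absurd (h ▸ p.1.1.2) (nY _)
    · exact absurd (h.symm ▸ q.1.1.2) (nY _)
    · exact Subtype.ext (hc (congrArg Prod.fst (hι h)))⟩
  obtain ⟨g, hg⟩ := extend_function f (Cardinal.eq.1 (by
    have h1 : #(sᶜ : Set _) = #α := le_antisymm ((mk_set_le _).trans hYN.le)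
      (hY.ge.trans (mk_le_of_injective (f := fun y : Y => (⟨(y, of 0), by
        rintro (h | h)
        · exact of_ne_one _ h
        · exact h rfl⟩ : (sᶜ : Set _))) fun a b h => congrArg (fun p => p.1.1) h))
    have h2 : #((Set.range f)ᶜ : Set _) = #α := le_antisymm (mk_set_le _)
      (mk_le_of_injective (f := fun a => (⟨ι (a, 2), by
        rintro ⟨p, hp⟩
        simp only [f, Embedding.coeFn_mk] at hp
        split_ifs at hp
        · exact (p.1.1.2 a).2 hp
        · simpa using hι hp⟩ : ((Set.range f)ᶜ : Set _))) fun a b h => by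
          have h' : ι (a, 2) = ι (b, 2) := congrArg (Subtype.val : ((Set.range f)ᶜ : Set _) → α) h
          simpa using hι h')
    rw [h1, h2]))
  have g1 : ∀ y : Y, g (y, 1) = y := fun y => (hg ⟨(y, 1), Or.inl rfl⟩).trans (by simp [f])
  obtain ⟨γ, hγ⟩ := swin g.symm ρ (· < ·) wellFounded_lt j
    (fun n w μ hμ => hρ n _ (by
      by_contra hz
      have : g (w, μ) ∈ Y := fun a => ⟨fun h => hz (h ▸ (i0 _).2), fun h => hz (h ▸ (i0 _).2)⟩
      exact hμ (congrArg Prod.snd (g.injective (g1 ⟨_, this⟩))).symm))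
    (fun n w => by
      refine Gn_mono (fun z hz m hm => ?_) (mem_supp _)
      obtain ⟨p, rfl⟩ := g.surjective z
      rw [g.symm_apply_apply] at hm ⊢
      have h1 : p.2 ≠ 1 := fun h => by rw [h, tau_one] at hm; cases hm
      have h2 : g p = ι (c p, 1) := (hg ⟨p, Or.inr (by rw [hm]; simp)⟩).trans (if_neg h1)
      by_contra hlt
      refine hcD p (Set.mem_biUnion (x := (w, n)) (by rw [hm]; exact not_lt.1 hlt) ?_)
      rw [← g1 w]
      show ι (c p, 1) ∈ _
      rw [← h2]
      exact hz)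
  exact ⟨_, _, γ, fun k => by rw [← aa_conj g.symm k]; exact hγ k⟩

section bd
variable {G : Type} [Group G] (X : Set G)

def Bd (n : ℕ) (g : G) : Prop :=
  ∃ l : List G, l.length ≤ n ∧ (∀ x ∈ l, x ∈ X ∨ x⁻¹ ∈ X) ∧ l.prod = g

variable {X}

lemma Bd.mono {n m : ℕ} {g : G} (h : Bd X n g) (hn : n ≤ m) : Bd X m g :=
  let ⟨l, a, b⟩ := h; ⟨l, a.trans hn, b⟩

lemma Bd.mul {n m : ℕ} {g h : G} (hg : Bd X n g) (hh : Bd X m h) : Bd X (n + m) (g * h) := by
  obtain ⟨l, a, b, rfl⟩ := hg
  obtain ⟨l', a', b', rfl⟩ := hh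
  exact ⟨l ++ l', by simpa using add_le_add a a', fun x hx => (List.mem_append.1 hx).elim (b x) (b' x),
    List.prod_append⟩

lemma Bd.inv {n : ℕ} {g : G} (hg : Bd X n g) : Bd X n g⁻¹ := by
  obtain ⟨l, a, b, rfl⟩ := hg
  refine ⟨(l.map fun x => x⁻¹).reverse, by simpa using a, fun x hx => ?_, (List.prod_inv_reverse l).symm⟩
  simp only [List.mem_reverse, List.mem_map] at hx
  obtain ⟨y, hy, rfl⟩ := hx
  simpa using (b y hy).symm

lemma Bd.pow {n : ℕ} {g : G} (hg : Bd X n g) (k : ℕ) : Bd X (k * n) (g ^ k) := by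
  induction k with
  | zero => exact ⟨[], by simp, by simp, by simp⟩
  | succ k ih => rw [pow_succ, Nat.succ_mul]; exact ih.mul hg

lemma ex_Bd (hX : Subgroup.closure X = ⊤) (g : G) : ∃ n, Bd X n g := by
  have hg : g ∈ Subgroup.closure X := hX ▸ Subgroup.mem_top g
  induction hg using Subgroup.closure_induction with
  | mem x hx => exact ⟨1, [x], le_rfl, by simp [hx], by simp⟩
  | one => exact ⟨0, [], by simp, by simp, by simp⟩
  | mul x y _ _ hx hy => exact ⟨_, hx.choose_spec.mul hy.choose_spec⟩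
  | inv x _ hx => exact ⟨_, hx.choose_spec.inv⟩

end bd

lemma ex_perm [Infinite α] (U V T : Set α) (hUV : Disjoint U V) (hV : #V = #α)
    (hc : #((U ∪ V)ᶜ : Set α) = #α) (hT : #(T \ U : Set α) = #α) :
    ∃ π : Equiv.Perm α, (∀ x ∈ U, π x = x) ∧ ∀ x ∈ V, π x ∈ T := by
  classical
  obtain ⟨h⟩ : Nonempty (V × Bool ≃ (T \ U : Set α)) := Cardinal.eq.1 (by
    rw [hT]; simp [mul_two, hV])
  let f : (U ∪ V : Set α) ↪ α := ⟨fun x => if hx : x.1 ∈ V then (h (⟨x.1, hx⟩, true)).1 else x.1,
    fun x y hxy => by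
      dsimp only at hxy
      split_ifs at hxy with h1 h2 h2
      · simpa [Subtype.ext_iff] using h.injective (Subtype.ext hxy)
      · exact absurd (hxy ▸ y.2.resolve_right h2) (h _).2.2
      · exact absurd (hxy.symm ▸ x.2.resolve_right h1) (h _).2.2
      · exact Subtype.ext hxy⟩
  obtain ⟨g, hg⟩ := extend_function f (Cardinal.eq.1 (by
    rw [hc]
    refine le_antisymm (hV.ge.trans (mk_le_of_injective (f := fun v : V => (⟨(h (v, false)).1, by
        rintro ⟨p, hp⟩
        simp only [f, Embedding.coeFn_mk] at hp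
        split_ifs at hp with h1
        · simpa using h.injective (Subtype.ext hp)
        · exact (h _).2.2 (hp ▸ p.2.resolve_right h1)⟩ : ((Set.range f)ᶜ : Set _))) fun a b hab => ?_))
      (mk_set_le _)
    have h' : (h (a, false)).1 = (h (b, false)).1 :=
      congrArg (Subtype.val : ((Set.range f)ᶜ : Set _) → α) hab
    simpa using h.injective (Subtype.ext h')))
  refine ⟨g, fun x hx => (hg ⟨x, Or.inl hx⟩).trans (dif_neg (Set.disjoint_left.1 hUV hx)),
    fun x hx => ?_⟩
  rw [hg ⟨x, Or.inr hx⟩]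
  simp only [f, Embedding.coeFn_mk, dif_pos hx]
  exact (h _).2.1


end Pool.Agent.KS6_98.AutF
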