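import Pool.Agent.KS6_98.AutF.Code

/-!
# Automorphism groups of free groups of infinite rank are strongly distorted
-/

set_option autoImplicit false

namespace Pool.Agent.KS6_98.AutF

open Pool.Agent.H19.AutFree
open FreeGroup hiding map_one map_inv map_mul
open Cardinal Function

variable {α : Type}

theorem Bd.of_mem {G : Type} [Group G] {X : Set G} {g : G} (h : g ∈ X) : Bd X 1 g :=
  ⟨[g], le_rfl, by simp [h], by simp⟩

theorem Bd.one {G : Type} [Group G] {X : Set G} (n : ℕ) : Bd X n (1 : G) :=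
  ⟨[], by simp, by simp, by simp⟩

theorem Bd.subset {G : Type} [Group G] {X Y : Set G} {n : ℕ} {g : G} (h : Bd X n g) (hXY : X ⊆ Y) :
    Bd Y n g :=
  let ⟨l, a, b, c⟩ := h
  ⟨l, a, fun x hx => (b x hx).imp (fun h => hXY h) fun h => hXY h, c⟩

/-- substitution of words -/
theorem Bd.trans {G : Type} [Group G] {X Y : Set G} {M : ℕ} (hM : ∀ x ∈ X, Bd Y M x) {n : ℕ} {g : G}
    (h : Bd X n g) : Bd Y (n * M) g := by
  obtain ⟨l, a, b, rfl⟩ := h
  suffices ∀ l : List G, (∀ x ∈ l, x ∈ X ∨ x⁻¹ ∈ X) → Bd Y (l.length * M) l.prod from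
    (this l b).mono (Nat.mul_le_mul_right _ a)
  intro l
  induction l with
  | nil => intro _; simpa using Bd.one (X := Y) 0
  | cons x l ih =>
    intro h
    have h1 : Bd Y M x := by
      rcases h x (by simp) with hx | hx
      · exact hM x hx
      · simpa using (hM _ hx).inv
    have h2 := h1.mul (ih fun y hy => h y (by simp [hy]))
    rw [List.prod_cons, List.length_cons]
    exact h2.mono (by rw [Nat.succ_mul]; omega)

theorem coded [Infinite α] (ρ : ℕ → MulAut (FreeGroup α)) (Z : Set α) (hZ : #Z = #α)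
    (hρ : ∀ n, ∀ z ∈ Z, ρ n (of z) = of z) :
    ∃ h : Fin 3 → MulAut (FreeGroup α), ∀ k, Bd (Set.range h) (4 * k + 4) (ρ k) := by
  obtain ⟨a, b, γ, h⟩ := code (fun n => ρ n.toNat) Z hZ fun n => hρ _
  refine ⟨![a, b, γ], fun k => ?_⟩
  have ha : Bd (Set.range ![a, b, γ]) 1 a := Bd.of_mem ⟨0, rfl⟩
  have hb : Bd (Set.range ![a, b, γ]) 1 b := Bd.of_mem ⟨1, rfl⟩
  have hc : Bd (Set.range ![a, b, γ]) 1 γ := Bd.of_mem ⟨2, rfl⟩
  have hab := ((ha.pow k).mul hb).mul (ha.pow k).inv
  have := ((hc.mul hab).mul hc.inv).mul hab.inv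
  have e := h k
  simp only [Int.toNat_natCast] at e
  rw [← e] at this
  exact this.mono (by omega)

/-- every automorphism fixing many basis elements is a conjugate `π σ π⁻¹` with `π` and `σ` from
standard stabilisers -/
theorem conj_form [Infinite α] : ∃ U V : Bool → Set α, (∀ b, #(U b) = #α) ∧ (∀ b, #(V b) = #α) ∧
    ∀ (ρ : MulAut (FreeGroup α)) (T : Set α), #T = #α → (∀ z ∈ T, ρ (of z) = of z) →
      ∃ (b : Bool) (π : MulAut (FreeGroup α)), (∀ z ∈ U b, π (of z) = of z) ∧
        ∀ z ∈ V b, (π⁻¹ * ρ * π) (of z) = of z := by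
  obtain ⟨i⟩ : Nonempty (α ≃ α × Bool × Bool) := Cardinal.eq.1 (by
    rw [mk_prod, lift_id, lift_id, mul_eq_left (aleph0_le_mk α)
      ((lt_aleph0_of_finite _).le.trans (aleph0_le_mk α)) (mk_ne_zero _)])
  have big : ∀ (S : Set α) (c : Bool × Bool), (∀ a, i.symm (a, c) ∈ S) → #S = #α := fun S c h =>
    le_antisymm (mk_set_le _) (mk_le_of_injective (f := fun a => (⟨_, h a⟩ : S)) fun a b hab => by
      simpa using hab)
  let U : Bool → Set α := fun b => {x | (i x).2.1 = b}
  let V : Bool → Set α := fun b => {x | (i x).2 = (!b, true)}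
  have hU : ∀ b, #(U b) = #α := fun b => big _ (b, true) fun a => by simp [U]
  have hV : ∀ b, #(V b) = #α := fun b => big _ (!b, true) fun a => by simp [V]
  refine ⟨U, V, hU, hV, fun ρ T hT hρ => ?_⟩
  obtain ⟨b, hb⟩ : ∃ b, #(T \ U b : Set α) = #α := by
    by_contra h
    push Not at h
    have : T ⊆ (T \ U true) ∪ (T \ U false) := fun x hx => by
      cases h : (i x).2.1 <;> simp [U, hx, h]
    exact absurd (hT.ge.trans ((mk_le_mk_of_subset this).trans (mk_union_le _ _))) (not_le.2
      (add_lt_of_lt (aleph0_le_mk α) ((mk_set_le _).lt_of_ne (h _)) ((mk_set_le _).lt_of_ne (h _))))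
  obtain ⟨π, h1, h2⟩ := ex_perm (U b) (V b) T (Set.disjoint_left.2 fun x hx hx' => by
    have := congrArg Prod.fst hx'
    rw [hx] at this
    simp at this) (hV b) (big _ (!b, false) fun a => by simp [U, V]) hb
  refine ⟨b, pm π, fun z hz => by rw [pm_of, h1 z hz], fun z hz => ?_⟩
  rw [MulAut.mul_apply, MulAut.mul_apply, pm_of, hρ _ (h2 z hz), pm_inv_of]; simp

/-- strong distortion -/
theorem distorted [Infinite α] (g : ℕ → MulAut (FreeGroup α)) :
    ∃ X : Finset (MulAut (FreeGroup α)), X.card ≤ 24 ∧ ∀ n, Bd (X : Set _) (48 * (n + 1)) (g n) := by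
  classical
  obtain ⟨U, V, hU, hV, hUV⟩ := conj_form (α := α)
  have split : ∀ φ : MulAut (FreeGroup α), ∃ ψ : MulAut (FreeGroup α),
      #{x | ψ (of x) = of x} = #α ∧ #{x | ψ (of x) = φ (of x)} = #α := by
    intro φ
    by_cases h : Countable α
    · exact split_count φ
    · have : Uncountable α := ⟨h⟩
      exact split_unc φ
  choose ψ hψ1 hψ2 using fun n => split (g n)
  let ρ : Bool → ℕ → MulAut (FreeGroup α) := fun i n => if i then (g n)⁻¹ * ψ n else ψ n
  have hρ : ∀ i n, ∃ T : Set α, #T = #α ∧ ∀ z ∈ T, ρ i n (of z) = of z := by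
    intro i n
    cases i
    · exact ⟨_, hψ1 n, fun z h => by simpa [ρ] using h⟩
    · refine ⟨_, hψ2 n, fun z h => ?_⟩
      have h' : ψ n (of z) = g n (of z) := h
      simp only [ρ, if_true]
      rw [MulAut.mul_apply, h']; simp
  have hb : ∀ i n, ∃ (b : Bool) (π : MulAut (FreeGroup α)), (∀ z ∈ U b, π (of z) = of z) ∧
      ∀ z ∈ V b, (π⁻¹ * ρ i n * π) (of z) = of z := by
    intro i n
    obtain ⟨T, hT, hT'⟩ := hρ i n
    exact hUV (ρ i n) T hT hT'
  choose b π hπ hσ using hb
  let s : Bool × Bool × Bool → ℕ → MulAut (FreeGroup α) := fun p n =>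
    if b p.1 n = p.2.1 then (if p.2.2 then (π p.1 n)⁻¹ * ρ p.1 n * π p.1 n else π p.1 n) else 1
  let Zs : Bool × Bool × Bool → Set α := fun p => if p.2.2 then V p.2.1 else U p.2.1
  have hcode : ∀ p, ∃ h : Fin 3 → MulAut (FreeGroup α),
      ∀ k, Bd (Set.range h) (4 * k + 4) (s p k) := by
    intro p
    refine coded (s p) (Zs p) ?_ ?_
    · simp only [Zs]; split_ifs
      · exact hV _
      · exact hU _
    · intro n z hz
      simp only [s, Zs] at hz ⊢
      by_cases h1 : b p.1 n = p.2.1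
      · rw [if_pos h1]
        by_cases h2 : p.2.2 = true
        · rw [if_pos h2] at hz ⊢
          exact hσ _ _ z (h1 ▸ hz)
        · rw [if_neg h2] at hz ⊢
          exact hπ _ _ z (h1 ▸ hz)
      · rw [if_neg h1]; rfl
  choose h hh using hcode
  let X : Finset (MulAut (FreeGroup α)) :=
    Finset.univ.image (fun q : (Bool × Bool × Bool) × Fin 3 => h q.1 q.2)
  refine ⟨X, Finset.card_image_le.trans (by simp), fun n => ?_⟩
  have hX : ∀ p k, Bd (X : Set _) (4 * k + 4) (s p k) := fun p k =>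
    (hh p k).subset (by
      rintro _ ⟨j, rfl⟩
      exact Finset.mem_coe.2 (Finset.mem_image_of_mem _ (Finset.mem_univ (p, j))))
  have two : ∀ i t n, s (i, true, t) n * s (i, false, t) n =
      if t then (π i n)⁻¹ * ρ i n * π i n else π i n := by
    intro i t n
    cases hbn : b i n <;> cases t <;> simp [s, hbn]
  have hπn : ∀ i, Bd (X : Set _) (8 * n + 8) (π i n) := fun i => by
    have := (hX (i, true, false) n).mul (hX (i, false, false) n)
    rw [two] at this
    exact this.mono (by omega)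
  have hσn : ∀ i, Bd (X : Set _) (8 * n + 8) ((π i n)⁻¹ * ρ i n * π i n) := fun i => by
    have := (hX (i, true, true) n).mul (hX (i, false, true) n)
    rw [two] at this
    exact this.mono (by omega)
  have hρn : ∀ i, Bd (X : Set _) (24 * n + 24) (ρ i n) := fun i => by
    have := ((hπn i).mul (hσn i)).mul (hπn i).inv
    rw [show π i n * ((π i n)⁻¹ * ρ i n * π i n) * (π i n)⁻¹ = ρ i n by group] at this
    exact this.mono (by omega)
  have := (hρn false).mul (hρn true).inv
  rw [show ρ false n * (ρ true n)⁻¹ = g n by simp only [ρ]; simp] at this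
  exact this.mono (by omega)

/-- strong distortion gives finite width for every generating set -/
theorem width [Infinite α] (Y : Set (MulAut (FreeGroup α))) (hY : Subgroup.closure Y = ⊤) :
    ∃ n : ℕ, ∀ g : MulAut (FreeGroup α), Bd Y n g := by
  by_contra hcon
  push Not at hcon
  choose g hg using hcon
  obtain ⟨X, -, hX⟩ := distorted (fun n => g (48 * (n + 1) * n))
  have h1 : ∃ M, ∀ x ∈ X, Bd Y M x := by
    choose m hm using ex_Bd hY
    exact ⟨X.sup m, fun x hx => (hm x).mono (Finset.le_sup hx)⟩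
  obtain ⟨M, hM⟩ := h1
  exact hg _ ((hX M).trans hM)

end Pool.Agent.KS6_98.AutF
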